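import Pool.Agent.L0h10.TX.Mid
import Pool.Agent.L0h10.TW.Conv
import Pool.Agent.L0h10.TM.Main2

/-!
# The middle degree decides the Mumford-Tate conjecture: conversions
-/

open CategoryTheory AlgebraicGeometry
open scoped TensorProduct

universe u v

namespace Pool.Agent.L0h10.TX

open Pool.Agent.H914 Pool.Agent.H914.VarClass Pool.Agent.H914.VarClass.Obj
  Pool.Agent.H914.WeilCohomology
open Pool.Agent.Y121.AHS Pool.Agent.N996.FP Pool.Agent.L0h10.TW
open Pool.Agent.Y133.Half (pw)

variable {k : Type u} [Field k] {𝒱 : VarClass k} {ops : CycleOps 𝒱}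
  {T : HodgeTheory ops} {X : 𝒱.Obj}
  {Γ : Type v} [Group Γ] {L : Type} [Field L] [Algebra T.W.K L]
  [TopologicalSpace Γ] (G : GaloisAction (powers T X L) Γ)

lemma mid_iff (g : ℕ) : TM.Mid (toTS G) g ↔
    BidegreeTateClassesAre G g ((powers T X L).hodge 1 g) := Iff.rfl

lemma tah_iff : TS.TateClassesAreHodge (toTS G) ↔ TateClassesAreHodge G := Iff.rfl

lemma hc_iff (n : ℕ) : Pool.Agent.N996.FP.HodgeConjecture T (pw X n) →
    TW.HodgeConjecture (powers T X L) n := by
  rintro h j _ ⟨c, hc, rfl⟩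
  obtain ⟨z, hz, rfl⟩ := h j c hc
  exact ⟨z, hz, rfl⟩

/-- **The middle degree decides the Mumford-Tate conjecture.** -/
theorem main [IsTopologicalGroup Γ] [CharZero L] (θ : AlgebraicClosure L ≃+* ℂ)
    {ψ : RForm T.W X} (hψ : IsPolarisation T X ψ)
    (hX : OfAbelianType T X) (h1 : HodgeClassesAreTate G) (h2 : ActsSemisimply G)
    (h3 : WeakHodgeOperatorsGenerate G)
    (h4 : SelfAdjointCentre T X ψ ∨ CentreKillsTate G) :
    (BidegreeTateClassesAre G X.dim ((powers T X L).hodge 1 X.dim) ↔ TateClassesAreHodge G) ∧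
    (BidegreeTateClassesAre G X.dim ((powers T X L).alg 1 X.dim) →
      ∀ n, TateConjecture G n ↔ TW.HodgeConjecture (powers T X L) n) := by
  have : CharZero (AlgebraicClosure L) :=
    charZero_of_injective_algebraMap (algebraMap L (AlgebraicClosure L)).injective
  have key : BidegreeTateClassesAre G X.dim ((powers T X L).hodge 1 X.dim) →
      TateClassesAreHodge G := fun h =>
    TM.tate_hodge2 (T := T) (X := X) (toTS G) θ hψ hX ((h1_iff G).2 h1) ((h2_iff G).2 h2)
      ((h3_iff G).2 h3) (h4.imp_right (h4_iff G).2) h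
  refine ⟨⟨key, fun h x hx _ => h 1 _ x hx⟩, fun h n => ?_⟩
  have h5 := key fun x hx hb => TM.comb_alg (T := T) (X := X) (n := 1) (h x hx hb)
  constructor
  · intro hT
    exact hc_iff n (TS.hodge_of_tate (T := T) (X := X) (toTS G) ((h1_iff G).2 h1) hT)
  · intro hH j x hx
    refine Submodule.span_mono ?_ (h5 n j x hx)
    intro y hy
    exact hH j y hy

end Pool.Agent.L0h10.TX
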