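import Pool.Agent.L0h10.TW.Abs

/-!
# Classes of bidegree `(g, g)` on `X × X`
-/

universe v

namespace Pool.Agent.L0h10.TX

open Pool.Agent.L0h10.TW

variable {L Ω : Type} [Field L] [Field Ω]

/-- The class `x` on `X × X` has bidegree `(g, g)`: it belongs to the Künneth component
`H ^ g(X) ⊗ H ^ g(X)`, that is, it is a linear combination of exterior products `a × b` of classes
`a` and `b` of degree `g` on `X`. -/
def HasBidegree (C : PowerCohomology L Ω) (g : ℕ) (x : C.V 1) : Prop :=
  IsComb L (fun y => ∃ a b, C.deg 0 g a ∧ C.deg 0 g b ∧ C.crossV 0 a b = y) x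

variable {C : PowerCohomology L Ω} {Γ : Type v} [Group Γ] [TopologicalSpace Γ]
  (G : GaloisAction C Γ)

/-- The Tate classes of bidegree `(g, g)` on `X × X` are linear combinations of classes with the
property `P`. -/
def BidegreeTateClassesAre (g : ℕ) (P : C.V 1 → Prop) : Prop :=
  ∀ x, IsTate G 1 g x → HasBidegree C g x → IsComb L P x

/-- The Tate classes on all powers of `X` are linear combinations of Hodge classes. (For an abelian
variety `X` it means that the Mumford-Tate conjecture holds for `X` at the prime number `ℓ`, as by a
theorem of Deligne the Hodge classes are Tate classes.) -/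
def TateClassesAreHodge : Prop := ∀ n j x, IsTate G n j x → IsComb L (C.hodge n j) x

end Pool.Agent.L0h10.TX
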